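import Pool.Agent.H5Lo.Prof

/-!
# The real inequalities for a surplus of both sets

The row `0` of `A` has at least the density `1 + d`, the row `0` of `k B` has the density `1 + τ`.
The first part of the density has the mass `m1 = (1 + d) f / (s - d)` and the excess
`ρ = (1 + ε) (s - d) / (1 + d)`.
-/

set_option autoImplicit false

namespace Pool.Agent.H5Uni

open Pool.Agent.H5St Pool.Agent.H5Lo

theorem tlo_le' {ε ρ θ s m1 m2 c f R : ℝ} (h1 : ρ * m1 = (1 + ε) * f)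
    (h2 : (1 - s) * m2 = 2 * f) (h12 : m1 ≤ 1 + s - m2)
    (A1 : (θ + (1 + s) / 2) * (1 + s - c) + ε * f - ρ * c ≤ R)
    (A2 : (θ + (1 + s) / 2) * (1 + s - c) - f ≤ R)
    (A3 : (s + θ) * (1 + s - c) ≤ R) : tlo ρ θ s m1 m2 c ≤ R := by
  unfold tlo
  rcases le_total c m1 with h | h
  · rw [min_eq_left h, min_eq_left (h.trans h12)]
    refine le_trans (le_of_eq ?_) A1
    linear_combination h1 - 1 / 2 * h2
  · rw [min_eq_right h]
    rcases le_total c (1 + s - m2) with h' | h'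
    · rw [min_eq_left h']
      refine le_trans (le_of_eq ?_) A2
      linear_combination (-1 / 2) * h2
    · rw [min_eq_right h']
      refine le_trans (le_of_eq ?_) A3
      ring

section

variable {ε ρ θ s d f x c m1 m2 : ℝ}

/-- The first bound, for all positions. -/
theorem uni_one (hθ0 : 0 ≤ θ) (hθ1 : θ ≤ 1) (hd0 : 0 ≤ d) (hd1 : d ≤ 1) (hds : d ≤ s)
    (hε0 : 0 ≤ ε) (hε : ε ≤ 1 - θ) (hρ : (1 + d) * ρ = (1 + ε) * (s - d)) (hρ0 : 0 ≤ ρ)
    (h1 : ρ * m1 = (1 + ε) * f) (h2 : (1 - s) * m2 = 2 * f) (h12 : m1 ≤ 1 + s - m2)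
    (hf : 0 ≤ f) (hfs : f ≤ s - d) (hx0 : 0 ≤ x) (hx1 : x ≤ 1) (hc : (1 + d) * x ≤ c)
    (hc2 : 2 * x - (1 - s) ≤ c) (hcs : c ≤ 1 + s) (hv : (1 + s) * x - c ≤ f) :
    tlo ρ θ s m1 m2 c ≤ (θ + s - (1 - θ) * d) * (1 - x) + (1 + s) / 2 * (1 + s - c) := by
  refine tlo_le' h1 h2 h12 ?_ ?_ ?_
  · have e1 : (θ + ρ) * ((1 + d) * x) ≤ (θ + ρ) * c := mul_le_mul_of_nonneg_left hc (by linarith)
    have e2 : ε * f ≤ ε * (s - d) := mul_le_mul_of_nonneg_left hfs hε0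
    have e3 : 0 ≤ (1 - θ - ε) * (s - d) := mul_nonneg (by linarith) (by linarith)
    have e4 : 0 ≤ ε * (s - d) * x := mul_nonneg (mul_nonneg hε0 (by linarith)) hx0
    have e5 : ρ * ((1 + d) * x) = (1 + ε) * (s - d) * x := by linear_combination x * hρ
    nlinarith
  · have e1 : θ * ((1 + s) * x - c) ≤ θ * f := mul_le_mul_of_nonneg_left hv hθ0
    have e2 : 0 ≤ (1 - θ) * f := mul_nonneg (by linarith) hf
    have e3 : 0 ≤ (1 - θ) * (s - d) * (1 - x) :=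
      mul_nonneg (mul_nonneg (by linarith) (by linarith)) (by linarith)
    nlinarith
  · have e2 : 0 ≤ (1 - θ) * (1 - d) * (1 - x) :=
      mul_nonneg (mul_nonneg (by linarith) (by linarith)) (by linarith)
    rcases le_total 0 (θ - 1 / 2 + s / 2) with hg | hg
    · have e1 : (θ - 1 / 2 + s / 2) * (1 + s - c) ≤ (θ - 1 / 2 + s / 2) * (2 * (1 - x)) :=
        mul_le_mul_of_nonneg_left (by linarith) hg
      nlinarith
    · have e1 : (θ - 1 / 2 + s / 2) * (1 + s - c) ≤ 0 :=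
        mul_nonpos_of_nonpos_of_nonneg hg (by linarith)
      have e3 : 0 ≤ (s - d) * (1 - x) := mul_nonneg (by linarith) (by linarith)
      have e4 : 0 ≤ θ * (1 + d) * (1 - x) :=
        mul_nonneg (mul_nonneg hθ0 (by linarith)) (by linarith)
      nlinarith

/-- The second bound, for all positions. -/
theorem uni_T (hs : 0 ≤ s) (hε0 : 0 ≤ ε) (hρ : (1 + d) * ρ = (1 + ε) * (s - d)) (hρ0 : 0 ≤ ρ)
    (h1 : ρ * m1 = (1 + ε) * f) (h2 : (1 - s) * m2 = 2 * f) (h12 : m1 ≤ 1 + s - m2)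
    (hc : (1 + d) * x ≤ c) (hc2 : 2 * x - (1 - s) ≤ c) (hv : (1 + s) * x - c ≤ f)
    {F : ℝ} (hF0 : 0 ≤ F) (hF : f - (s - d) * x ≤ F) :
    tlo ρ θ s m1 m2 c ≤ (1 + s) * (1 - x) + (θ - (1 - s) / 2) * (1 + s - c) + ε * F := by
  have hεF : 0 ≤ ε * F := mul_nonneg hε0 hF0
  refine tlo_le' h1 h2 h12 ?_ ?_ ?_
  · have e1 : (1 + ρ) * ((1 + d) * x) ≤ (1 + ρ) * c := mul_le_mul_of_nonneg_left hc (by linarith)
    have e2 : ε * (f - (s - d) * x) ≤ ε * F := mul_le_mul_of_nonneg_left hF hε0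
    have e5 : ρ * ((1 + d) * x) = (1 + ε) * (s - d) * x := by linear_combination x * hρ
    nlinarith
  · nlinarith
  · nlinarith [mul_le_mul_of_nonneg_left hc2 (show (0 : ℝ) ≤ (1 + s) / 2 by linarith)]

end

/-- The case of an early first point of the row `0` and a late first point of the row `1`. -/
theorem uni_mid {ε τ W s d F X : ℝ} (hds : 0 < s - d) (hs1 : s ≤ 1)
    (hτ0 : 0 ≤ τ) (hG : 2 * W ≤ (1 + d) * (1 + τ)) (hε2 : (1 - τ) * ε ≤ (1 + τ) - W)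
    (hF : 0 ≤ F) (hFX : F ≤ (s - d) * X) :
    (1 - τ) * (ε * F) ≤ ((1 + s) * (1 + τ) / 2 - W) * (F + (1 - s) * X) := by
  have hg : 0 ≤ (1 + s) * (1 + τ) / 2 - W := by nlinarith
  have h1 : (1 - τ) * ε * (s - d) ≤ ((1 + s) * (1 + τ) / 2 - W) * (1 - d) := by
    have h2 := mul_le_mul_of_nonneg_right hε2 hds.le
    have h3 : 0 ≤ ((1 + d) * (1 + τ) / 2 - W) * (1 - s) := mul_nonneg (by linarith) (by linarith)
    nlinarith
  have h2 : (1 - d) * F ≤ (s - d) * (F + (1 - s) * X) := by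
    have := mul_le_mul_of_nonneg_left hFX (sub_nonneg.2 hs1)
    nlinarith
  have h3 := mul_le_mul_of_nonneg_right h1 hF
  have h4 := mul_le_mul_of_nonneg_left h2 hg
  have h5 : (s - d) * ((1 - τ) * (ε * F)) ≤
      (s - d) * (((1 + s) * (1 + τ) / 2 - W) * (F + (1 - s) * X)) := by
    nlinarith
  exact le_of_mul_le_mul_left h5 hds

end Pool.Agent.H5Uni
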