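import Pool.Agent.H5Uni.Feas

/-!
# The density is feasible, surplus of both sets
-/

set_option autoImplicit false

namespace Pool.Agent.H5Uni

open Pool.Agent.H5St Pool.Agent.H5Lo

variable {L l' : ℕ} {s f d θ ε τ W : ℝ} {C0 C1 : ℕ → ℝ}

theorem m1_uni (H : Prof L s f C0 C1 l') (hd0 : 0 ≤ d) (hds : d ≤ s)
    (hlow : ∀ l ≤ L, (1 + d) * ((l : ℝ) / L) ≤ C0 l) :
    (1 + ε) * (s - d) / (1 + d) * ((1 + d) * f / (s - d)) = (1 + ε) * f := by
  have h0 : 0 < 1 + d := by linarith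
  rcases f_cases H hds hlow with h | ⟨-, h1, -⟩
  · rw [h]
    ring
  · field_simp

/-- **Feasibility.** -/
theorem feas_uni (H : Prof L s f C0 C1 l') {P : ℝ} (hθ0 : 0 ≤ θ) (hθ1 : θ ≤ 1)
    (hτ0 : 0 ≤ τ) (hτ1 : τ ≤ 1) (hd0 : 0 ≤ d) (hd1 : d ≤ 1) (hds : d ≤ s)
    (hW : W = (1 - θ) * (1 - τ)) (hε0 : 0 ≤ ε) (hε : ε ≤ 1 - θ)
    (hε2 : (1 - τ) * ε ≤ (1 + τ) - W) (hG : 2 * W ≤ (1 + d) * (1 + τ))
    (hlow : ∀ l ≤ L, (1 + d) * ((l : ℝ) / L) ≤ C0 l) {z0 z1 : ℕ}
    (hz0 : z0 ≤ L) (hz1 : z1 ≤ L)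
    (hP1 : z1 ≤ z0 → (1 + τ) * (((1 + s) - W) * (1 - (z0 : ℝ) / L) +
      (1 + s) * (1 - (z1 : ℝ) / L)) ≤ P)
    (hP2 : z0 ≤ z1 → z1 - z0 ≤ L - z1 →
      (2 * ((1 + s) - W) + W * (1 - d)) * (1 - (z0 : ℝ) / L) ≤ P)
    (hP3 : z0 ≤ z1 → L - z1 ≤ z1 - z0 →
      2 * ((1 + s) - W) * (1 - (z0 : ℝ) / L) + 2 * W * (1 - (z1 : ℝ) / L) ≤ P) :
    (1 - τ) * (tlo ((1 + ε) * (s - d) / (1 + d)) θ s ((1 + d) * f / (s - d))
      (2 * f / (1 - s)) (C0 z0) + (1 + s) / 2 * (1 - s - C1 z1)) +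
      τ * (1 + s) * ((1 + s - C0 z0) + (1 - s - C1 z1)) ≤ P := by
  obtain ⟨x, hx⟩ : ∃ x, x = (z0 : ℝ) / L := ⟨_, rfl⟩
  obtain ⟨y, hy⟩ : ∃ y, y = (z1 : ℝ) / L := ⟨_, rfl⟩
  obtain ⟨x', hx'⟩ : ∃ x', x' = (l' : ℝ) / L := ⟨_, rfl⟩
  have px := pos_div H.hL hz0
  have py := pos_div H.hL hz1
  have px' := pos_div H.hL H.hl'
  have l0 := hlow z0 hz0
  have l1 := H.low z0 hz0
  have l2 := H.low z1 hz1
  have l3 := H.low l' H.hl'
  have v0 := H.hv z0 hz0
  have fe := H.hf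
  have f1 := f_le_lo H hlow
  have u0 := H.up0 z0
  have u1 := H.up0 z1
  have w0 := H.up1 z0
  have hs := H.hs
  have hs1 := H.hs1
  have hf0 := H.hf0
  rw [← hx] at px l0 l1 v0
  rw [← hy] at py l2
  rw [← hx'] at px' l3 fe f1
  rw [← hx, ← hy] at hP1 hP3
  rw [← hx] at hP2
  obtain ⟨c, hc⟩ : ∃ c, c = C0 z0 := ⟨_, rfl⟩
  obtain ⟨β, hβ⟩ : ∃ β, β = 1 - s - C1 z1 := ⟨_, rfl⟩
  obtain ⟨ρ, hρe⟩ : ∃ ρ, ρ = (1 + ε) * (s - d) / (1 + d) := ⟨_, rfl⟩
  have h0 : 0 < 1 + d := by linarith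
  have hρ : (1 + d) * ρ = (1 + ε) * (s - d) := by
    rw [hρe]
    field_simp
  have hρ0 : 0 ≤ ρ := by
    rw [hρe]
    exact div_nonneg (mul_nonneg (by linarith) (by linarith)) h0.le
  have hm1 : ρ * ((1 + d) * f / (s - d)) = (1 + ε) * f := by
    rw [hρe]
    exact m1_uni H hd0 hds hlow
  have hml := m_le_lo H hd0 hds hlow
  rw [← hβ, ← hρe]
  rw [← hc] at l0 l1 v0 u0 ⊢
  have hfs : f ≤ s - d := f1.trans (by nlinarith [px'.2])
  have hc2 : 2 * x - (1 - s) ≤ c := by linarith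
  have hβy : β ≤ 2 * (1 - y) - (1 + s - C0 z1) := by
    rw [hβ]
    linarith
  have hβY : β ≤ 2 * (1 - y) := by linarith
  have hθ' : 0 ≤ 1 - θ := by linarith
  have hτ' : 0 ≤ 1 - τ := by linarith
  have hW0 : 0 ≤ W := by rw [hW]; exact mul_nonneg hθ' hτ'
  have hU : (1 + s) - W = (1 - τ) * (θ + s) + τ * (1 + s) := by rw [hW]; ring
  obtain ⟨T, hT⟩ : ∃ T, T = tlo ρ θ s ((1 + d) * f / (s - d)) (2 * f / (1 - s)) c := ⟨_, rfl⟩
  have c1 := uni_one hθ0 hθ1 hd0 hd1 hds hε0 hε hρ hρ0 hm1 H.m2_eq hml hf0 hfs px.1 px.2 l0 hc2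
    u0 v0
  rw [← hT] at c1 ⊢
  have c1' := mul_le_mul_of_nonneg_left c1 hτ'
  have hk : 0 ≤ (1 - τ) * (1 + s) / 2 + τ * (1 + s) := by positivity
  rcases le_total z1 z0 with h' | h'
  · refine le_trans ?_ (hP1 h')
    have h1 : C0 z1 ≤ c := by rw [hc]; exact H.mono0 h'
    have h2 : ((1 - τ) * (1 + s) / 2 + τ * (1 + s)) * ((1 + s - c) + β) ≤
        ((1 - τ) * (1 + s) / 2 + τ * (1 + s)) * (2 * (1 - y)) :=
      mul_le_mul_of_nonneg_left (by linarith) hk
    have h3 : 0 ≤ (1 - τ) * ((1 - θ) * d * (1 - x)) :=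
      mul_nonneg hτ' (mul_nonneg (mul_nonneg hθ' hd0) (by linarith [px.2]))
    have h4 : 0 ≤ τ * (1 + s) * (1 - x) :=
      mul_nonneg (mul_nonneg hτ0 (by linarith)) (by linarith [px.2])
    have h5 : 0 ≤ τ * (((1 - τ) * (θ + s) + τ * (1 + s)) * (1 - x)) :=
      mul_nonneg hτ0 (mul_nonneg (add_nonneg (mul_nonneg hτ' (by linarith))
        (mul_nonneg hτ0 (by linarith))) (by linarith [px.2]))
    rw [hU]
    linarith
  · have h1 : C1 z0 ≤ C1 z1 := H.mono1 h'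
    have hβx : β ≤ 2 * (1 - x) - (1 + s - c) := by
      rw [hβ]
      linarith
    rcases le_total (z1 - z0) (L - z1) with h'' | h''
    · refine le_trans ?_ (hP2 h' h'')
      have h2 : ((1 - τ) * (1 + s) / 2 + τ * (1 + s)) * ((1 + s - c) + β) ≤
          ((1 - τ) * (1 + s) / 2 + τ * (1 + s)) * (2 * (1 - x)) :=
        mul_le_mul_of_nonneg_left (by linarith) hk
      have e : (2 * ((1 + s) - W) + W * (1 - d)) * (1 - x) =
          (1 - τ) * ((θ + s - (1 - θ) * d) * (1 - x)) +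
            ((1 - τ) * (1 + s) / 2 + τ * (1 + s)) * (2 * (1 - x)) := by
        rw [hW]
        ring
      rw [e]
      linarith
    · refine le_trans ?_ (hP3 h' h'')
      have hg : 0 ≤ (1 + s) * (1 + τ) / 2 - W := by
        have : (1 + d) * (1 + τ) ≤ (1 + s) * (1 + τ) :=
          mul_le_mul_of_nonneg_right (by linarith) (by linarith)
        linarith
      -- the claim which is left
      have red : ∀ F : ℝ, 0 ≤ F → f - (s - d) * x ≤ F →
          (1 - τ) * (ε * F) ≤ ((1 + s) * (1 + τ) / 2 - W) * (2 * (1 - x) - (1 + s - c) - β) +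
            W * (2 * (1 - y) - β) →
          (1 - τ) * (T + (1 + s) / 2 * β) + τ * (1 + s) * (1 + s - c + β) ≤
            2 * (1 + s - W) * (1 - x) + 2 * W * (1 - y) := by
        intro F hF0 hF hF2
        have h2 := uni_T (θ := θ) hs hε0 hρ hρ0 hm1 H.m2_eq hml l0 hc2 v0 hF0 hF
        rw [← hT] at h2
        have h3 := mul_le_mul_of_nonneg_left h2 hτ'
        have e : 2 * (1 + s - W) * (1 - x) + 2 * W * (1 - y) -
            ((1 - τ) * ((1 + s) * (1 - x) + (θ - (1 - s) / 2) * (1 + s - c) + ε * F) +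
              (1 - τ) * ((1 + s) / 2 * β) + τ * (1 + s) * (1 + s - c + β)) =
            ((1 + s) * (1 + τ) / 2 - W) * (2 * (1 - x) - (1 + s - c) - β) +
              W * (2 * (1 - y) - β) - (1 - τ) * (ε * F) := by
          rw [hW]
          ring
        linarith
      have hw0 : 0 ≤ 2 * (1 - x) - (1 + s - c) - β := by linarith
      have hw1 : 0 ≤ W * (2 * (1 - y) - β) := mul_nonneg hW0 (by linarith)
      have hw2 := mul_nonneg hg hw0
      rcases le_total (f - (s - d) * x) 0 with hF | hF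
      · refine red 0 le_rfl hF ?_
        rw [mul_zero, mul_zero]
        linarith
      · refine red (f - (s - d) * x) hF le_rfl ?_
        rcases le_total l' z1 with h5 | h5
        · have h6 : C1 l' ≤ C1 z1 := H.mono1 h5
          have h7 : f - (s - d) * x + (1 - s) * (x' - x) ≤
              2 * (1 - x) - (1 + s - c) - β := by
            rw [hβ]
            linarith
          rcases (sub_nonneg.2 hds).eq_or_lt with h8 | h8
          · have : f - (s - d) * x = 0 := by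
              rw [← h8] at f1 ⊢
              linarith
            rw [this, mul_zero, mul_zero]
            linarith
          · have h9 := uni_mid (X := x' - x) h8 hs1 hτ0 hG hε2 hF (by linarith)
            have h10 := mul_le_mul_of_nonneg_left h7 hg
            linarith
        · have h6 : C0 z1 ≤ C0 l' := H.mono0 h5
          have h7 : f ≤ 1 + s - C0 l' := by
            have : 0 ≤ (1 + s) * (1 - x') := mul_nonneg (by linarith) (by linarith [px'.2])
            linarith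
          have h8 : f - (s - d) * x ≤ 2 * (1 - y) - β := by
            have : 0 ≤ (s - d) * x := mul_nonneg (by linarith) px.1
            linarith
          have h9 := mul_le_mul_of_nonneg_left h8 hW0
          have h10 : (1 - τ) * (ε * (f - (s - d) * x)) ≤ W * (f - (s - d) * x) := by
            rw [hW]
            have := mul_le_mul_of_nonneg_right (mul_le_mul_of_nonneg_left hε hτ') hF
            linarith
          linarith

end Pool.Agent.H5Uni
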