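import Pool.Agent.H65R.Reach2
import Pool.Agent.H5Lo.Reach

/-!
# The number of the points which are reached, with the weights `U` and `U + W`
-/

set_option autoImplicit false

open Finset Classical

namespace Pool.Agent.H5Uni

open Pool.Agent.PlunTwo Pool.Agent.PlunRow Pool.Agent.H5St Pool.Agent.H5Lo

/-- The lower bounds for the weighted number of the reached points. -/
theorem reach_uni {q k : ℕ} {B : Set (ℕ × ℕ)} {Z : Finset (ℕ × ℕ)} {z0 z1 : ℕ}
    {δ U W c h : ℝ} (hU : 0 ≤ U) (hW : 0 ≤ W)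
    (hK : Boxy q (kfold B k) δ c h) (hz0 : z0 ≤ q + 1) (hz1 : z1 ≤ q + 1)
    (h0 : z0 < q + 1 → (z0, 0) ∈ Z) (h1 : z1 < q + 1 → (z1, 1) ∈ Z) :
    (δ * (c * (U * (((q + 1 : ℕ) : ℝ) - z0) + (U + W) * (((q + 1 : ℕ) : ℝ) - z1))) ≤
      U * (im q k B 0 Z).card + (U + W) * (im q k B 1 Z).card) ∧
    (z0 ≤ z1 → z1 - z0 ≤ q + 1 - z1 →
      δ * ((2 * U + W * h) * (((q + 1 : ℕ) : ℝ) - z0)) ≤
      U * (im q k B 0 Z).card + (U + W) * (im q k B 1 Z).card) ∧
    (z0 ≤ z1 → z1 - z0 ≤ q + 1 - z1 →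
      δ * ((U * c + (U + W) * h) * (((q + 1 : ℕ) : ℝ) - z0)) ≤
      U * (im q k B 0 Z).card + (U + W) * (im q k B 1 Z).card) ∧
    (z0 ≤ z1 → q + 1 - z1 ≤ z1 - z0 →
      δ * (2 * U * (((q + 1 : ℕ) : ℝ) - z0) + 2 * W * (((q + 1 : ℕ) : ℝ) - z1)) ≤
      U * (im q k B 0 Z).card + (U + W) * (im q k B 1 Z).card) := by
  have i0 : (row 0 (kfold B k) (q + 1 - z0) : ℝ) ≤ (im q k B 0 Z).card := by
    exact_mod_cast im_zero_ge h0
  have i1 : (row 0 (kfold B k) (q + 1 - z1) : ℝ) ≤ (im q k B 1 Z).card := by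
    exact_mod_cast im_one_ge h1
  have i2 : (row 1 (kfold B k) (q + 1 - z0) : ℝ) ≤ (im q k B 1 Z).card := by
    exact_mod_cast im_one_ge0 h0
  have r0 := hK.zero (q + 1 - z0) (by omega)
  have r1 := hK.zero (q + 1 - z1) (by omega)
  have r2 := hK.both (q + 1 - z0) (by omega)
  rw [Nat.cast_sub hz0] at r0 r2
  rw [Nat.cast_sub hz1] at r1
  have p2 : 0 ≤ U + W := by linarith
  have e0 := mul_le_mul_of_nonneg_left (show δ * (2 * (((q + 1 : ℕ) : ℝ) - z0)) ≤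
    ((im q k B 0 Z).card : ℝ) + (im q k B 1 Z).card by linarith) hU
  refine ⟨?_, fun hz h' => ?_, fun hz h' => ?_, fun hz h' => ?_⟩
  · have e1 := mul_le_mul_of_nonneg_left (r0.trans i0) hU
    have e2 := mul_le_mul_of_nonneg_left (r1.trans i1) p2
    nlinarith
  · have i3 : (row 1 (kfold B k) (z1 - z0) : ℝ) + row 0 (kfold B k) (q + 1 - z1) ≤
        (im q k B 1 Z).card := by exact_mod_cast im_one_ge' hz hz1 h0 h1
    have k1 := hK.stair (q + 1 - z1) (z1 - z0) h' (by omega)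
    rw [Nat.cast_sub hz1, Nat.cast_sub hz] at k1
    have e2 := mul_le_mul_of_nonneg_left (show h * δ * (((q + 1 : ℕ) : ℝ) - z0) ≤
      ((im q k B 1 Z).card : ℝ) by linarith) hW
    nlinarith
  · have i3 : (row 1 (kfold B k) (z1 - z0) : ℝ) + row 0 (kfold B k) (q + 1 - z1) ≤
        (im q k B 1 Z).card := by exact_mod_cast im_one_ge' hz hz1 h0 h1
    have k1 := hK.stair (q + 1 - z1) (z1 - z0) h' (by omega)
    rw [Nat.cast_sub hz1, Nat.cast_sub hz] at k1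
    have e1 := mul_le_mul_of_nonneg_left (r0.trans i0) hU
    have e2 := mul_le_mul_of_nonneg_left (show h * δ * (((q + 1 : ℕ) : ℝ) - z0) ≤
      ((im q k B 1 Z).card : ℝ) by linarith) p2
    nlinarith
  · have i3 : (row 1 (kfold B k) (z1 - z0) : ℝ) + row 0 (kfold B k) (q + 1 - z1) ≤
        (im q k B 1 Z).card := by exact_mod_cast im_one_ge' hz hz1 h0 h1
    have k2 := hK.both (q + 1 - z1) (by omega)
    have k3 : (row 1 (kfold B k) (q + 1 - z1) : ℝ) ≤ row 1 (kfold B k) (z1 - z0) := by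
      exact_mod_cast row_mono 1 _ h'
    rw [Nat.cast_sub hz1] at k2
    have e2 := mul_le_mul_of_nonneg_left (show δ * (2 * (((q + 1 : ℕ) : ℝ) - z1)) ≤
      ((im q k B 1 Z).card : ℝ) by linarith) hW
    nlinarith

end Pool.Agent.H5Uni
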