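import Pool.Agent.H5Lo.Star

/-!
# The first part of the density pays for the last one, surplus of both sets
-/

set_option autoImplicit false

namespace Pool.Agent.H5Uni

open Pool.Agent.H5St Pool.Agent.H5Lo

/-- The comparison of the two parts, from a condition on `ε`. -/
theorem star_uni {θ d s ε κ Q z1 : ℝ} (hθ0 : 0 < θ) (hθ1 : θ < 1) (hd0 : 0 ≤ d)
    (hds : d ≤ s) (hs1 : s ≤ 1) (hκ : 1 ≤ κ) (hε0 : 0 ≤ ε) (hQ : Q = θ + (1 + s) * κ / 2)
    (hz : z1 = (1 - s) / 2)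
    (hε : (1 - θ) * (1 + ε) * (1 - d) ≤ (1 + d) * (θ + κ) * ε) :
    2 * (s - d) * (1 - ((Q - z1) / Q) ^ θ) ≤
      (1 - s) * (1 + d) * ((1 + (1 + ε) * (s - d) / (1 + d) / Q) ^ θ - 1) := by
  have hQ1 : (1 + s) * (θ + κ) ≤ 2 * Q := by
    rw [hQ]
    nlinarith
  have hQ2 : θ + (1 + s) / 2 ≤ Q := by
    rw [hQ]
    nlinarith
  have hQ0 : 0 < Q := by linarith
  have hd1 : 0 < 1 + d := by linarith
  obtain ⟨y, hy⟩ : ∃ y, y = (1 + ε) * (s - d) / (1 + d) / Q := ⟨_, rfl⟩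
  obtain ⟨z, hz'⟩ : ∃ z, z = -((1 - s) / 2 / Q) := ⟨_, rfl⟩
  have hy0 : 0 ≤ y := by
    rw [hy]
    exact div_nonneg (div_nonneg (mul_nonneg (by linarith) (by linarith)) hd1.le) hQ0.le
  have hz1 : -1 < z := by
    rw [hz', neg_lt_neg_iff, div_lt_one hQ0]
    linarith
  have hyQ : y * ((1 + d) * Q) = (1 + ε) * (s - d) := by
    rw [hy]
    field_simp
  have hzQ : z * (2 * Q) = -(1 - s) := by
    rw [hz']
    field_simp
  have ht : (Q - z1) / Q = 1 + z := by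
    rw [div_eq_iff hQ0.ne']
    have : (1 + z) * Q = Q + z * (2 * Q) / 2 := by ring
    rw [this, hzQ, hz]
    ring
  rw [ht, ← hy]
  have B1 := pow_ge (show -1 < y by linarith) hθ0.le hθ1.le
  have B2 := pow_ge hz1 hθ0.le hθ1.le
  set p1 := (1 + y) ^ θ with hp1
  set p3 := (1 + z) ^ θ with hp3
  -- the two bounds, without denominators
  have U0 : 0 < (1 + d) * Q + (1 - θ) * (1 + ε) * (s - d) := by
    have : 0 < (1 + d) * Q := mul_pos hd1 hQ0
    have : 0 ≤ (1 - θ) * (1 + ε) * (s - d) :=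
      mul_nonneg (mul_nonneg (by linarith) (by linarith)) (by linarith)
    linarith
  have W0 : 0 < 2 * Q - (1 - θ) * (1 - s) := by
    have : 0 ≤ θ * (1 - s) := mul_nonneg hθ0.le (by linarith)
    linarith
  have hU : θ * (1 + ε) * (s - d) ≤
      (p1 - 1) * ((1 + d) * Q + (1 - θ) * (1 + ε) * (s - d)) := by
    have h := mul_le_mul_of_nonneg_right B1 (mul_pos hd1 hQ0).le
    have e1 : (1 + y) * ((1 + d) * Q) = (1 + d) * Q + (1 + ε) * (s - d) := by
      rw [add_mul, hyQ]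
      ring
    have e2 : p1 * (1 + (1 - θ) * y) * ((1 + d) * Q) =
        p1 * ((1 + d) * Q + (1 - θ) * ((1 + ε) * (s - d))) := by
      rw [← hyQ]
      ring
    rw [e1, e2] at h
    linarith
  have hW : (1 - p3) * (2 * Q - (1 - θ) * (1 - s)) ≤ θ * (1 - s) := by
    have h := mul_le_mul_of_nonneg_right B2 (show 0 ≤ 2 * Q by linarith)
    have e1 : (1 + z) * (2 * Q) = 2 * Q - (1 - s) := by
      rw [add_mul, hzQ]
      ring
    have e2 : p3 * (1 + (1 - θ) * z) * (2 * Q) = p3 * (2 * Q - (1 - θ) * (1 - s)) := by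
      have : p3 * (1 + (1 - θ) * z) * (2 * Q) = p3 * (2 * Q + (1 - θ) * (z * (2 * Q))) := by ring
      rw [this, hzQ]
      ring
    rw [e1, e2] at h
    linarith
  -- the comparison of the denominators
  have hUW : 2 * ((1 + d) * Q + (1 - θ) * (1 + ε) * (s - d)) ≤
      (1 + d) * (1 + ε) * (2 * Q - (1 - θ) * (1 - s)) := by
    have k1 : (1 + s) * ((1 - θ) * (1 + ε) * (1 - d)) ≤ (1 + s) * ((1 + d) * (θ + κ) * ε) :=
      mul_le_mul_of_nonneg_left hε (by linarith)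
    have k2 : (1 + d) * ε * ((1 + s) * (θ + κ)) ≤ (1 + d) * ε * (2 * Q) :=
      mul_le_mul_of_nonneg_left hQ1 (mul_nonneg hd1.le hε0)
    have e : (1 + d) * (1 + ε) * (2 * Q - (1 - θ) * (1 - s)) -
        2 * ((1 + d) * Q + (1 - θ) * (1 + ε) * (s - d)) =
        (1 + d) * ε * (2 * Q) - (1 + s) * ((1 - θ) * (1 + ε) * (1 - d)) := by
      ring
    linarith
  -- conclusion
  set U := (1 + d) * Q + (1 - θ) * (1 + ε) * (s - d) with hUd
  set W := 2 * Q - (1 - θ) * (1 - s) with hWd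
  have g1 : 1 - p3 ≤ θ * (1 - s) / W := by rw [le_div_iff₀ W0]; exact hW
  have g2 : θ * (1 + ε) * (s - d) / U ≤ p1 - 1 := by rw [div_le_iff₀ U0]; exact hU
  have h2s : 0 ≤ 2 * (s - d) := by linarith
  have h1s : 0 ≤ (1 - s) * (1 + d) := mul_nonneg (by linarith) hd1.le
  refine (mul_le_mul_of_nonneg_left g1 h2s).trans
    (le_trans ?_ (mul_le_mul_of_nonneg_left g2 h1s))
  rw [← mul_div_assoc, ← mul_div_assoc, div_le_div_iff₀ W0 U0]
  have k : 0 ≤ θ * (1 - s) * (s - d) :=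
    mul_nonneg (mul_nonneg hθ0.le (by linarith)) (by linarith)
  have := mul_le_mul_of_nonneg_left hUW k
  nlinarith

/-- The condition on `ε` for the choice `ε = min (1 - θ) (κ - (1 - θ))`. -/
theorem eps_cond {θ d κ ε : ℝ} (hθ1 : θ < 1) (hd0 : 0 ≤ d) (hκ : 1 ≤ κ)
    (hε : ε = min (1 - θ) (κ - (1 - θ))) (hG : 2 * (1 - θ) ≤ (1 + d) * κ) (hθ0 : 0 ≤ θ) :
    (1 - θ) * (1 + ε) * (1 - d) ≤ (1 + d) * (θ + κ) * ε := by
  rcases le_total (1 - θ) (κ - (1 - θ)) with h | h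
  · rw [min_eq_left h] at hε
    rw [hε]
    have h1 : (1 + (1 - θ)) * (1 - d) ≤ (θ + κ) * (1 + d) := by
      have e1 : (1 + (1 - θ)) * (1 - d) ≤ (1 + (1 - θ)) * (1 + d) :=
        mul_le_mul_of_nonneg_left (by linarith) (by linarith)
      have e2 : (1 + (1 - θ)) * (1 + d) ≤ (θ + κ) * (1 + d) :=
        mul_le_mul_of_nonneg_right (by linarith) (by linarith)
      linarith
    have h2 := mul_le_mul_of_nonneg_left h1 (sub_nonneg.2 hθ1.le)
    linarith
  · rw [min_eq_right h] at hε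
    have h1 : (1 - θ) * (1 - d) ≤ (1 + d) * ε := by
      rw [hε]
      linarith
    have h2 : 1 + ε = θ + κ := by
      rw [hε]
      ring
    rw [h2]
    have h3 := mul_le_mul_of_nonneg_left h1 (show 0 ≤ θ + κ by linarith)
    linarith

end Pool.Agent.H5Uni
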